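import Mathlib

namespace Pool.Agent.Results.MP_544047_al.Terminates

/-- The letters `a, b, a⁻¹, b⁻¹` of the free group on two generators. -/
def letters : Set (FreeGroup (Fin 2)) :=
  {FreeGroup.of 0, FreeGroup.of 1, (FreeGroup.of 0)⁻¹, (FreeGroup.of 1)⁻¹}

/-- `layer H y i` is the set `C_{i-1}` of left cosets. -/
def layer (H : Subgroup (FreeGroup (Fin 2))) (y : FreeGroup (Fin 2)) :
    ℕ → Set (FreeGroup (Fin 2) ⧸ H)
  | 0 => ∅
  | 1 => {(y : FreeGroup (Fin 2) ⧸ H)}
  | i + 2 => {z | ∃ h ∈ letters, ∃ x ∈ layer H y (i + 1), z = h • x} \ layer H y i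

theorem inv_mem {h : FreeGroup (Fin 2)} (hh : h ∈ letters) : h⁻¹ ∈ letters := by
  simp only [letters, Set.mem_insert_iff, Set.mem_singleton_iff] at hh ⊢
  rcases hh with rfl | rfl | rfl | rfl <;> simp

theorem disj (H : Subgroup (FreeGroup (Fin 2))) (y : FreeGroup (Fin 2)) (i : ℕ) :
    ∀ j < i, j % 2 = i % 2 → ∀ x ∈ layer H y i, x ∉ layer H y j := by
  induction i using Nat.strong_induction_on with
  | _ i ih =>
    intro j hj hp x hx hxj
    obtain ⟨i, rfl⟩ : ∃ k, i = k + 2 := ⟨i - 2, by omega⟩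
    obtain ⟨⟨h, hh, w, hw, rfl⟩, hx2⟩ := hx
    by_cases hji : j = i
    · exact hx2 (hji ▸ hxj)
    · rcases j with _ | j
      · exact hxj
      · by_cases hwj : w ∈ layer H y j
        · exact ih (i + 1) (by omega) j (by omega) (by omega) w hw hwj
        · refine ih (i + 1) (by omega) (j + 2) (by omega) (by omega) w hw ⟨?_, hwj⟩
          exact ⟨h⁻¹, inv_mem hh, _, hxj, by simp⟩

theorem result (H : Subgroup (FreeGroup (Fin 2))) (hH : H.FiniteIndex) (y : FreeGroup (Fin 2)) :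
    ∃ i, 1 ≤ i ∧ layer H y (i + 1) = ∅ := by
  by_contra hc
  push Not at hc
  choose f hf using fun k : ℕ => hc (2 * k + 1) (by omega)
  haveI : Finite (FreeGroup (Fin 2) ⧸ H) := Subgroup.finite_quotient_of_finiteIndex
  refine not_injective_infinite_finite f fun k l hkl => ?_
  by_contra hne
  rcases lt_or_gt_of_ne hne with h | h
  · exact disj H y _ (2 * k + 1 + 1) (by omega) (by omega) _ (hf l) (hkl ▸ hf k)
  · exact disj H y _ (2 * l + 1 + 1) (by omega) (by omega) _ (hf k) (hkl ▸ hf l)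

end Pool.Agent.Results.MP_544047_al.Terminates
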